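import Pool.Agent.X252.SLD

/-!
# The Bloch–Kato rank formula for Hilbert modular forms: cyclic and hyperelementary extensions

Let `g` be a Hilbert newform over the totally real field `F`, and `L/F` a totally real finite Galois
extension. For the fields `M` between `F` and `L` let `sel M = dim H¹_f(M, V)` and
`ord M = ord_{s=0} L(V|M, s)`, and let `sel M - ord M` be the defect over `M`; for solvable `M/F` the rank
formula for `M` is the one for the base change of `g` to `M`. The only input are the Brauer relations
(`NewformRanks`).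

1. The formula holds for `M` if it holds for all `M' ⊇ M` with `L/M'` cyclic.
2. If `L/F` is not cyclic and the formula fails for `F`, it fails for some `M ≠ F` with `L/M` cyclic.
3. A common divisor of the defects of all `M' ⊇ M` with `L/M'` cyclic divides `[L : M]` times the defect
   of `M`.
4. The formula for `M` holds modulo `m` if it holds modulo `m` for all `M' ⊇ M` such that `Gal(L/M')` is
   `p`-hyperelementary for a prime divisor `p` of `m`; for `m = 2` this is parity.
5. Modulo `m`, cyclic groups suffice for `F` if there are two such extensions of coprime degrees.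
-/

set_option autoImplicit false

namespace Pool.Agent.Results.MP_6e2fc3_nt.HyperelementaryFields

open Pool.Agent.X252.SL Pool.Agent.H302R3 NumberField

/-- **The Selmer ranks and the orders of vanishing of a Hilbert newform over the fields between `F` and
`L`**: `sel M = dim H¹_f(M, V)`, `ord M = ord_{s=0} L(V|M, s)`. Both satisfy all Brauer relations: the
first by Galois descent, the second by Artin's formalism. -/
structure NewformRanks (F L : Type) [Field F] [Field L] [Algebra F L]
    (sel : IntermediateField F L → ℕ) (ord : IntermediateField F L → ℤ) : Prop where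
  sel_add : BrauerAdditive F L fun M => (sel M : ℤ)
  ord_add : BrauerAdditive F L ord

/-- **The rank formula over the fields of a totally real Galois extension.** -/
theorem result (F L : Type) [Field F] [NumberField F] [IsTotallyReal F] [Field L] [NumberField L]
    [IsTotallyReal L] [Algebra F L] [IsGalois F L] (sel : IntermediateField F L → ℕ)
    (ord : IntermediateField F L → ℤ) (E : NewformRanks F L sel ord) :
    -- 1. cyclic extensions
    (∀ M : IntermediateField F L, (∀ M' : IntermediateField F L, M ≤ M' →
      IsCyclic M'.fixingSubgroup → (sel M' : ℤ) = ord M') → (sel M : ℤ) = ord M) ∧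
    -- 2. failures spread
    (¬ IsCyclic (L ≃ₐ[F] L) → (sel ⊥ : ℤ) ≠ ord ⊥ → ∃ M : IntermediateField F L, M ≠ ⊥ ∧
      IsCyclic M.fixingSubgroup ∧ (sel M : ℤ) ≠ ord M) ∧
    -- 3. divisors of the defects
    (∀ (M : IntermediateField F L) (m : ℤ), (∀ M' : IntermediateField F L, M ≤ M' →
      IsCyclic M'.fixingSubgroup → m ∣ (sel M' : ℤ) - ord M') →
      m ∣ (Module.finrank M L : ℤ) * ((sel M : ℤ) - ord M)) ∧
    -- 4. hyperelementary groups
    (∀ (M : IntermediateField F L) (m : ℤ), m ≠ 0 → (∀ M' : IntermediateField F L, M ≤ M' →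
      (∃ p : ℕ, p.Prime ∧ (p : ℤ) ∣ m ∧ HypP p M'.fixingSubgroup) →
        m ∣ (sel M' : ℤ) - ord M') → m ∣ (sel M : ℤ) - ord M) ∧
    -- 5. two extensions of coprime degrees
    (∀ (L' : Type) [Field L'] [NumberField L'] [IsTotallyReal L'] [Algebra F L'] [IsGalois F L']
      (sel' : IntermediateField F L' → ℕ) (ord' : IntermediateField F L' → ℤ),
      NewformRanks F L' sel' ord' → sel ⊥ = sel' ⊥ → ord ⊥ = ord' ⊥ →
      (Module.finrank F L).Coprime (Module.finrank F L') → ∀ m : ℤ,
      (∀ M : IntermediateField F L, IsCyclic M.fixingSubgroup → m ∣ (sel M : ℤ) - ord M) →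
      (∀ M : IntermediateField F L', IsCyclic M.fixingSubgroup → m ∣ (sel' M : ℤ) - ord' M) →
      m ∣ (sel ⊥ : ℤ) - ord ⊥) := by
  have hd := E.sel_add.sub E.ord_add
  have h1 : ∀ M : IntermediateField F L, (∀ M' : IntermediateField F L, M ≤ M' →
      IsCyclic M'.fixingSubgroup → (sel M' : ℤ) = ord M') → (sel M : ℤ) = ord M :=
    fun M h => sub_eq_zero.1 (hd.cyc_zero M fun M' h2 h3 => sub_eq_zero.2 (h M' h2 h3))
  refine ⟨h1, fun hG hne => ?_, fun M m h => hd.cyc M m h, fun M m hm h => hd.hyp hm M h,
    fun L' _ _ _ _ _ sel' ord' E' hs ho hco m h h' => ?_⟩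
  · by_contra hcon
    push Not at hcon
    refine hne (h1 ⊥ fun M' _ hc => hcon M' (fun h0 => hG ?_) hc)
    subst h0
    rw [IntermediateField.fixingSubgroup_bot] at hc
    exact isCyclic_of_surjective (Subgroup.topEquiv : (⊤ : Subgroup (L ≃ₐ[F] L)) ≃* _)
      (MulEquiv.surjective _)
  · refine hd.two (E'.sel_add.sub E'.ord_add) ?_ hco m h h'
    simp only [hs, ho]

end Pool.Agent.Results.MP_6e2fc3_nt.HyperelementaryFields
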