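import Pool.Agent.X290.Reg.Sel2
/-!
# A bound for Selmer groups of `2`-adic representations over `ℚ`

Let `A` be a Noetherian local ring of residue characteristic `2` (for instance the integers of a
finite extension of `ℚ_2`), `S` a finite set of odd primes and `R : Gal(ℚbar/ℚ) → GL_m(A)`
continuous, unramified outside `2` and `S`, with unipotent reduction. Let `L` be a field that
contains `A`, and `V = L^m`. The classes of continuous cocycles which are unramified outside `2` and
`S` and trivial on the inertia groups at the primes `q` in `S` span a space of dimension at most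
`dim V^(c = -1) + dim V^G + ∑ (dim V - dim V^(τ_q))`, where `c` is a complex conjugation and `τ_q` an
element of the inertia group at `q` which moves the square root of `q` (a generator of tame inertia).
The Selmer group of Bloch and Kato is contained in this space.
-/

set_option autoImplicit false

open NumberField Matrix IsLocalRing

namespace Pool.Agent.Results.MP_6e2fc3_nt.SelmerBoundAtTwo

/-- The absolute Galois group of `ℚ`. -/
abbrev G : Type := Gal(AlgebraicClosure ℚ/ℚ)

/-- The ring of all algebraic integers. -/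
abbrev Z : Type := 𝓞 (AlgebraicClosure ℚ)

/-- The conditions on the ring of coefficients. -/
def Coefficients (A : Type) [CommRing A] [IsLocalRing A] [TopologicalSpace A] : Prop :=
  IsNoetherianRing A ∧ IsAdic (maximalIdeal A) ∧ (2 : A) ∈ maximalIdeal A

/-- The inertia group at the prime ideal `P` of the ring of all algebraic integers. -/
def Inertia (P : Ideal Z) : Set G := {τ | ∀ x : Z, τ • x - x ∈ P}

/-- `c` is a complex conjugation. -/
def Conjugation (c : G) : Prop :=
  ∃ φ : AlgebraicClosure ℚ →+* ℂ, ∀ x, φ (c x) = (starRingEnd ℂ) (φ x)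

/-- The elements of `S` are odd primes, `Q q` is a prime above `q` and `τ q` is an element of its
inertia group which moves the square roots of `q`. -/
def Primes (S : Finset ℕ) (Q : ℕ → Ideal Z) (τ : ℕ → G) : Prop :=
  ∀ q ∈ S, q.Prime ∧ q ≠ 2 ∧ (Q q).IsMaximal ∧ (q : Z) ∈ Q q ∧ τ q ∈ Inertia (Q q) ∧
    ∀ r : Z, r ^ 2 = q → τ q • r = -r

/-- `P` is a prime ideal that does not lie above `2` or an element of `S`. -/
def Outside (S : Finset ℕ) (P : Ideal Z) : Prop :=
  P.IsMaximal ∧ (2 : Z) ∉ P ∧ ∀ r ∈ S, (r : Z) ∉ P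

variable {A : Type} [CommRing A] {m : ℕ}

/-- `R` is continuous, unramified outside `2` and `S`, and the reduction of `R g` is unipotent for
all `g`. -/
def Representation [IsLocalRing A] [TopologicalSpace A] (S : Finset ℕ) (R : G →* GL (Fin m) A) :
    Prop :=
  Continuous R ∧ (∀ P : Ideal Z, Outside S P → ∀ τ ∈ Inertia P, R τ = 1) ∧
  ∀ g, IsNilpotent ((R g : Matrix (Fin m) (Fin m) A).map (residue A) - 1)

/-- The matrix of `g` over `L`. -/
noncomputable def mat (R : G →* GL (Fin m) A) (L : Type) [Field L] [Algebra A L] (g : G) :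
    Matrix (Fin m) (Fin m) L :=
  (R g : Matrix (Fin m) (Fin m) A).map (algebraMap A L)

/-- `z` is a continuous cocycle, trivial on the inertia groups outside `2` and `S`, which over `L` is
a coboundary on the inertia group at `Q q` for all `q` in `S`. -/
def Selmer [TopologicalSpace A] (S : Finset ℕ) (Q : ℕ → Ideal Z) (R : G →* GL (Fin m) A)
    (L : Type) [Field L] [Algebra A L] (z : G → Fin m → A) : Prop :=
  Continuous z ∧ (∀ g h, z (g * h) = z g + (R g : Matrix (Fin m) (Fin m) A) *ᵥ z h) ∧
  (∀ P : Ideal Z, Outside S P → ∀ τ ∈ Inertia P, z τ = 0) ∧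
  ∀ q ∈ S, ∃ v : Fin m → L, ∀ g ∈ Inertia (Q q),
    (fun j => algebraMap A L (z g j)) = mat R L g *ᵥ v - v

/-- The space of invariants. -/
def Invariants (R : G →* GL (Fin m) A) (L : Type) [Field L] [Algebra A L] :
    Submodule L (Fin m → L) where
  carrier := {v | ∀ g, mat R L g *ᵥ v = v}
  add_mem' {v w} hv hw g := by rw [Matrix.mulVec_add, hv g, hw g]
  zero_mem' g := Matrix.mulVec_zero _
  smul_mem' c v hv g := by rw [Matrix.mulVec_smul, hv g]

/-- The bound for the dimension. -/
noncomputable def bound (R : G →* GL (Fin m) A) (L : Type) [Field L] [Algebra A L] (S : Finset ℕ)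
    (c : G) (τ : ℕ → G) : ℕ :=
  (mat R L c - 1).rank + (∑ q ∈ S, (mat R L (τ q) - 1).rank) +
    Module.finrank L (Invariants R L)

/-- Any `k + 1` cocycles as above, where `k` is at least the bound, are linearly dependent over `L`
modulo coboundaries. -/
def SelmerBound [TopologicalSpace A] (S : Finset ℕ) (Q : ℕ → Ideal Z) (τ : ℕ → G) (c : G)
    (R : G →* GL (Fin m) A) (L : Type) [Field L] [Algebra A L] : Prop :=
  ∀ k : ℕ, bound R L S c τ ≤ k → ∀ z : Fin (k + 1) → G → Fin m → A,
    (∀ i, Selmer S Q R L (z i)) → ∃ a : Fin (k + 1) → L, a ≠ 0 ∧ ∃ v : Fin m → L, ∀ g,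
      (∑ i, a i • fun j => algebraMap A L (z i g j)) = mat R L g *ᵥ v - v

omit [CommRing A] in
/-- The theorem. -/
theorem result (S : Finset ℕ) (Q : ℕ → Ideal Z) (τ : ℕ → G) (hS : Primes S Q τ) (c : G)
    (hc : Conjugation c) (m : ℕ) (A : Type) [CommRing A] [IsLocalRing A] [TopologicalSpace A]
    (hA : Coefficients A) (R : G →* GL (Fin m) A) (hR : Representation S R) (L : Type) [Field L]
    [Algebra A L] (h2 : (2 : L) ≠ 0) : SelmerBound S Q τ c R L := by
  obtain ⟨_, hA, h2A⟩ := hA
  obtain ⟨φ, hc⟩ := hc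
  obtain ⟨hRc, hur, hres⟩ := hR
  intro k hk z hz
  obtain ⟨a, ha, v, hv⟩ := Pool.Agent.X290.Reg.selQ S (fun q hq => ⟨(hS q hq).1, (hS q hq).2.1⟩) Q τ
    (fun q hq => ⟨(hS q hq).2.2.1, (hS q hq).2.2.2.1⟩)
    (fun q hq => ⟨(hS q hq).2.2.2.2.1, (hS q hq).2.2.2.2.2⟩) φ hc hA h2A R hRc
    (fun P hP h2P hSP τ hτ => hur P ⟨hP, h2P, hSP⟩ τ hτ) hres h2 z (fun i => (hz i).1)
    (fun i => (hz i).2.1) (fun P hP h2P hSP τ hτ i => (hz i).2.2.1 P ⟨hP, h2P, hSP⟩ τ hτ)
    (fun q hq i => by
      obtain ⟨v, hv⟩ := (hz i).2.2.2 q hq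
      exact ⟨v, fun g hg => hv g hg⟩) hk
  exact ⟨a, ha, v, fun g => sub_eq_zero.1 (hv g)⟩

end Pool.Agent.Results.MP_6e2fc3_nt.SelmerBoundAtTwo
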