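import Pool.Agent.X298.TR.Main

/-!
# The Bloch–Kato rank formula for a whole space of Hilbert newforms: the number of exceptions from one sum with Hecke traces

Let `g_i`, `i ∈ I`, be the Hilbert newforms over `F` as in the problem of a given weight and level, `S` a finite set of places containing
the divisors of the level, `tr σ_{i,v}^k` the traces of the powers of the normalised Satake parameters (absolute value `1`) and
`t_v(k) = ∑_i tr σ_{i,v}^k`; for `k = 1` this is the normalised trace of `T_v` on the space of newforms. For `γ > π / 2`, `T > 0` let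

  `R(T) = ∑_{v ∉ S} ∑_{k ≥ 1} t_v(k) q_v^{-k/2} e^{iγu} / (k Γ(1 + u))`,  `u = k log q_v / T`,

a sum which involves only the traces of Hecke operators (given by the trace formula). Let `O` be the set of the forms with sign `-1` (its
number is given by the trace of the Atkin–Lehner involution), `m_i = ord_{s=0} L(g_i, s)` (centre at `1/2` in the normalisation used
here) and `h_i = dim H¹_f(F, V_{g_i,λ})`. Suppose that `h_i = m_i` if `m_i ≤ 1`, as is known in many cases (Gross–Zagier, Kolyvagin,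
Kato, Zhang, Nekovář). We show:

* `R(T)` converges absolutely, `R(T) = r - M (log T - Λ(γ)) + O(1/T)`, and `- R(T) / log T → M = ∑ m_i`;
* **the formula `h_i = m_i` fails for at most `(M - |O|) / 2` of the forms**, whatever the orders are;
* `M ≥ |O|`, and the function `Re R(T) + |O| log T` is bounded from below for `T → ∞` if and only if all the `m_i` are at most `1`; **in this case
  the Bloch–Kato rank formula holds for all newforms of this weight and level.**
-/

set_option autoImplicit false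

open Filter Topology
open IsDedekindDomain NumberField

namespace Pool.Agent.Results.MP_6e2fc3_nt.TotalOrderBoundsExceptions

open Pool.Agent.X298.ST Pool.Agent.X298.II Pool.Agent.X298.HT Pool.Agent.X298.TR

/-- **The rank formula for a whole space of newforms and one sum with Hecke traces.** -/
theorem result {F : Type} [Field F] [NumberField F] (S : Set (HeightOneSpectrum (𝓞 F))) {I : Type} [Fintype I]
    (σ : I → Param S 2) (Λ : I → ℂ → ℂ) (hc : ∀ i, IsCont (cf (σ i)) (1 / 2) (Λ i))
    (ha : ∀ i, AnalyticAt ℂ (Λ i) (1 / 2)) (O : Finset I)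
    (hO : ∀ i (m : ℤ), meromorphicOrderAt (Λ i) (1 / 2) = (m : WithTop ℤ) → (Odd m ↔ i ∈ O))
    (sel : I → ℕ)
    (hsel : ∀ i (m : ℤ), meromorphicOrderAt (Λ i) (1 / 2) = (m : WithTop ℤ) → m ≤ 1 → (sel i : ℤ) = m)
    (γ : ℝ) (hγ : Real.pi / 2 < γ) :
    (∀ T : ℝ, 0 < T → Summable fun x => ‖rTerm σ γ T x‖) ∧
    ∃ m : I → ℕ, (∀ i, meromorphicOrderAt (Λ i) (1 / 2) = ((m i : ℤ) : WithTop ℤ)) ∧
      (∃ r : ℂ, (fun T : ℝ => rSum σ γ T - (r - (∑ i, m i : ℕ) * (Real.log T - Lambda γ))) =O[atTop]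
        (fun T : ℝ => 1 / T)) ∧
      Tendsto (fun T : ℝ => rSum σ γ T / (Real.log T : ℂ)) atTop (𝓝 (-((∑ i, m i : ℕ) : ℂ))) ∧
      2 * Nat.card {i // sel i ≠ m i} + O.card ≤ ∑ i, m i ∧
      ((∃ C : ℝ, ∀ᶠ T : ℝ in atTop, C ≤ (rSum σ γ T).re + O.card * Real.log T) ↔ ∀ i, m i ≤ 1) ∧
      ((∃ C : ℝ, ∀ᶠ T : ℝ in atTop, C ≤ (rSum σ γ T).re + O.card * Real.log T) → ∀ i, sel i = m i) := by
  classical
  obtain ⟨m, r, h1, h2⟩ := main σ Λ hc ha hγ
  have hO' : ∀ i, Odd (m i) ↔ i ∈ O := fun i => by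
    rw [← hO i (m i) (h1 i)]
    exact (Int.odd_coe_nat (m i)).symm
  have hsel' : ∀ i, m i ≤ 1 → sel i = m i := fun i hi => by
    have := hsel i (m i) (h1 i) (by exact_mod_cast hi)
    exact_mod_cast this
  obtain ⟨h3, h4⟩ := comb m sel O hO' hsel'
  have hle : O.card ≤ ∑ i, m i := le_trans (Nat.le_add_left _ _) h3
  obtain ⟨M', hM'⟩ := Nat.exists_eq_add_of_le hle
  have h5 : (fun T : ℝ => (rSum σ γ T + O.card * (Real.log T : ℂ)) -
      ((r + O.card * Lambda γ) - M' * (Real.log T - Lambda γ))) =O[atTop] (fun T : ℝ => 1 / T) := by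
    refine h2.congr_left fun T => ?_
    rw [hM']
    push_cast
    ring
  obtain ⟨h6, -⟩ := Pool.Agent.X298.GP.bdd_iff h5
  have hre : ∀ T : ℝ, (rSum σ γ T + O.card * (Real.log T : ℂ)).re = (rSum σ γ T).re + O.card * Real.log T := by
    intro T
    rw [Complex.add_re, ← Complex.ofReal_natCast, ← Complex.ofReal_mul, Complex.ofReal_re]
  simp only [hre] at h6
  have h7 : (∃ C : ℝ, ∀ᶠ T : ℝ in atTop, C ≤ (rSum σ γ T).re + O.card * Real.log T) ↔ ∀ i, m i ≤ 1 := by
    rw [← h6, ← h4]
    omega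
  refine ⟨fun T hT => r_summable σ γ hT, m, h1, ⟨r, h2⟩, Pool.Agent.X298.GP.lim_neg h2, ?_, h7, fun h i => ?_⟩
  · rw [Nat.card_eq_fintype_card, Fintype.card_subtype]
    exact h3
  · exact hsel' i (h7.mp h i)

end Pool.Agent.Results.MP_6e2fc3_nt.TotalOrderBoundsExceptions
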