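import Pool.Agent.X208.BR.BKDefs
import Pool.Agent.X208.BR.Perm2

/-!
# The Bloch–Kato rank formula for Hilbert modular forms: two layers suffice

Let `g` be a Hilbert newform over the totally real field `F` as in the problem, and let
`sel K' = dim H¹_f(K', V_{g,λ})`, `ord K' = ord_{s=0} L(V_{g,λ}|K', s)` (`HilbertRanks`) for the
totally real fields `K' ⊃ F`; for abelian `K'/F` this is the rank formula for the base change of `g` to
`K'`. The only input are the Brauer relations. Let `M/F` be a totally real Galois extension with elementary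
abelian group of exponent `p` (any prime `p`); its `j`-th layer is the set of the fields `F ⊂ K' ⊂ M` with
`[K' : F] = p^j`. Suppose that the rank formula FAILS for `g` over `F`. Then:

1. of any two layers `j < k` of `M/F` at least one contains a field over which the formula fails:
   at most one layer of `M/F` is free of failures;
2. the proportions `x_j`, `x_k` of the failures in the layers `j < k` satisfy `N x_j + x_k ≥ 1`, where
   `N = N(j, k)` is the number of the fields of degree `p^j` in a field of degree `p^k`;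
   for `j = 1`, `k = 2` this is `(p + 1) x_1 + x_2 ≥ 1`.

Hence the rank formula over `F` follows from the formula for the base changes of `g` to the fields of two
layers of one such extension, and even to more than `N/(N+1)` of the fields of both layers.
-/

set_option autoImplicit false

namespace Pool.Agent.Results.MP_6e2fc3_nt.TwoLayersSuffice

open Pool.Agent.X208.BR Pool.Agent.X208.BR.Pk

/-- **The Bloch–Kato rank formula for Hilbert modular forms: two layers suffice.** -/
theorem result (F : Fld) (g : HilbertRanks F) (p : ℕ) (hp : p.Prime) (M : Fld)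
    (hM : Pk.IsElementary p F M) (hR : IsTotReal M) :
    -- failures spread
    (g.sel F ≠ g.ord F →
      -- 1. at most one layer is free of failures
      (∀ j k : ℕ, j < k → p ^ k * deg F ≤ deg M →
        (g.failing M (p ^ j)).Nonempty ∨ (g.failing M (p ^ k)).Nonempty) ∧
      -- 2. proportions
      (∀ j k : ℕ, j < k → ∃ N : ℕ, (∀ K' ∈ Pk.layer F M (p ^ k), (Pk.layer F K' (p ^ j)).ncard = N) ∧
        (Pk.layer F M (p ^ j)).ncard * (Pk.layer F M (p ^ k)).ncard ≤
          (Pk.layer F M (p ^ j)).ncard * (g.failing M (p ^ k)).ncard +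
            N * (Pk.layer F M (p ^ k)).ncard * (g.failing M (p ^ j)).ncard) ∧
      ((Pk.layer F M p).ncard * (Pk.layer F M (p ^ 2)).ncard ≤
        (Pk.layer F M p).ncard * (g.failing M (p ^ 2)).ncard +
          (p + 1) * (Pk.layer F M (p ^ 2)).ncard * (g.failing M p).ncard)) ∧
    -- 3. two layers suffice
    (∀ j k : ℕ, j < k → p ^ k * deg F ≤ deg M →
      (∀ K' ∈ Pk.layer F M (p ^ j), g.sel K' = g.ord K') →
      (∀ K' ∈ Pk.layer F M (p ^ k), g.sel K' = g.ord K') → g.sel F = g.ord F) := by
  set f : Fld → ℤ := fun K' => (g.sel K' : ℤ) - g.ord K' with hf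
  have hres : Respects F M f := by
    intro ι κ _ _ A B hAB
    have h1 := g.descent p M hp hM hR ι κ _ _ A B hAB
    have h2 := g.artin p M hp hM hR ι κ _ _ A B hAB
    simp only [hf, Finset.sum_sub_distrib]
    rw [h1, h2]
  have hiff : ∀ K', f K' ≠ 0 ↔ g.sel K' ≠ g.ord K' := by
    intro K'
    simp only [hf, ne_eq, sub_eq_zero, Nat.cast_inj]
  have hbad : ∀ n, bad F M f n = g.failing M n := by
    intro n
    ext L
    exact and_congr_right fun _ => hiff L
  have hne : g.sel F ≠ g.ord F → ∀ n : ℕ, 0 < n → n • f F ≠ 0 := by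
    intro h n hn
    rw [nsmul_eq_mul]
    exact mul_ne_zero (by exact_mod_cast hn.ne') ((hiff F).2 h)
  have key : g.sel F ≠ g.ord F → ∀ j k : ℕ, j < k → p ^ k * deg F ≤ deg M →
      (g.failing M (p ^ j)).Nonempty ∨ (g.failing M (p ^ k)).Nonempty := by
    intro h j k hjk hd
    rcases two_layers hp hM hres (hne h) hjk hd with ⟨L, hL, hL'⟩ | ⟨L, hL, hL'⟩
    · exact Or.inl ⟨L, hL, (hiff L).1 hL'⟩
    · exact Or.inr ⟨L, hL, (hiff L).1 hL'⟩
  refine ⟨fun h => ⟨key h, fun j k hjk => ?_, ?_⟩, fun j k hjk hd h1 h2 => ?_⟩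
  · obtain ⟨N, hN, h1⟩ := perm_law hp hM hres (hne h) hjk
    rw [hbad, hbad] at h1
    exact ⟨N, hN, h1⟩
  · have h1 := perm_law_12 hp hM hres (hne h)
    rw [hbad, hbad] at h1
    exact h1
  · by_contra hcon
    rcases key hcon j k hjk hd with ⟨L, hL, hL'⟩ | ⟨L, hL, hL'⟩
    · exact hL' (h1 L hL)
    · exact hL' (h2 L hL)

end Pool.Agent.Results.MP_6e2fc3_nt.TwoLayersSuffice
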